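import Mathlib
import Pool.Agent.TH350.SC.Defs
import Pool.Agent.TH350.SC.Fin

/-!
# Schneider's conjecture over `ℚ` for almost all primes and many twists

For `L = ℚ`, a prime `p` and odd `r ≥ 3` the vanishing of `Ш¹(ℤ[1/p], ℤ_p(r))` is equivalent to
`ζ_p(r) ≠ 0`, where
`ζ_p(r) = L_p(r, ω^{1-r}) = 1/(r-1) · lim_N p^{-N} ∑_{0 < a < p^N, p ∤ a} a^{1-r}`
(this equivalence is classical and not formalised).  `ZetaUnit p r`: the limit exists and is a
`p`-adic unit.  `GoodClass p m`: this is so for every `r ≥ 2`, `r ≡ 1 - 2m (mod p - 1)`.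

Proof.  Voronoi's argument (multiplication by a primitive root `c` modulo `p^N`) shows
`(1 - c^{1-r}) ∑ a^{1-r} ≡ (r-1) p^N ∑ ⌊ca/p^N⌋ (ca)^{-r}` modulo `(r-1) p^{2N}`
(`Pool/Agent/TH350/SC/Vor.lean`), the right-hand sums are congruent modulo `p^N` for `N` and `N+1`,
and for `N = 1` the sum is `(c^{2m} - 1) B_{2m} / (2m)` modulo `p` (`Bern.lean`, `Main.lean`).
The statement on the numbers `B_{2m}` is the starting theorem `MP_a3a416_nt.SparseIrregular`.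
-/

set_option autoImplicit false

open Filter Topology

namespace Pool.Agent.Results.MP_59f3ad_nt.AlmostAllPrimesOverQ

open Pool.Agent.TH350.SC

/-- Let `ψ` tend to infinity.  (1) For every `η > 0` almost all primes `p` satisfy, simultaneously
for all `K`: at most `ψ(p) (K² log p / p)^{1+η}` of the `m ≤ K`, `2m ≤ p - 3`, are not good, where
`m` is good if for all `r ≥ 2`, `r ≡ 1 - 2m (mod p - 1)`, the `p`-adic zeta value `ζ_p(r)` is a unit.
(2) For almost all primes `p` all `m` with `1 ≤ m ≤ √(p / log p) / ψ(p)`, `2m ≤ p - 3`, are good. -/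
theorem result (ψ : ℕ → ℝ) (hψ : Tendsto ψ atTop atTop) :
    (∀ η : ℝ, 0 < η → Tendsto (fun X : ℕ =>
        (({p : ℕ | p ≤ X ∧ p.Prime ∧ ∀ K : ℕ,
            (badCount p K : ℝ) ≤ ψ p * ((K : ℝ) ^ 2 * Real.log p / p) ^ (1 + η)}.ncard : ℕ) : ℝ)
          / (({p : ℕ | p ≤ X ∧ p.Prime}.ncard : ℕ) : ℝ)) atTop (𝓝 1)) ∧
    Tendsto (fun X : ℕ =>
        (({p : ℕ | p ≤ X ∧ p.Prime ∧ ∀ m : ℕ, 1 ≤ m → 2 * m + 3 ≤ p →
            (m : ℝ) * ψ p ≤ √(p / Real.log p) → GoodClass p m}.ncard : ℕ) : ℝ)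
          / (({p : ℕ | p ≤ X ∧ p.Prime}.ncard : ℕ) : ℝ)) atTop (𝓝 1) :=
  ⟨fun η hη => sparse η hη ψ hψ, none_small ψ hψ⟩

end Pool.Agent.Results.MP_59f3ad_nt.AlmostAllPrimesOverQ
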