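import Mathlib
import Pool.Agent.TH350.SC.Defs
import Pool.Agent.TH350.SC.Cnt

/-!
# Schneider's conjecture over `ℚ`: for every prime many residue classes of twists

Notation and background as in `MP_59f3ad_nt.AlmostAllPrimesOverQ`: `GoodClass p m` says that for
every `r ≥ 2`, `r ≡ 1 - 2m (mod p - 1)`, the `p`-adic zeta value
`ζ_p(r) = 1/(r-1) · lim_N p^{-N} ∑_{0 < a < p^N, p ∤ a} a^{1-r}` exists and is a `p`-adic unit.
The bound for Bernoulli numbers is `all_parts` of `Pool/Agent/TH10/RP/Final.lean`.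
-/

set_option autoImplicit false

namespace Pool.Agent.Results.MP_59f3ad_nt.EveryPrimeOverQ

open Pool.Agent.TH350.SC

open Classical in
/-- For every prime `p` and every `K ≤ (p - 3) / 2` the number `s` of the `m`, `1 ≤ m ≤ K`, such that
`ζ_p(r)` is a `p`-adic unit for all `r ≥ 2` with `r ≡ 1 - 2m (mod p - 1)` satisfies
`K ^ 3 ≤ 10 ^ 6 s ^ 4`. -/
theorem result (p : ℕ) (hp : p.Prime) (K : ℕ) (hK : 2 * K + 3 ≤ p) :
    K ^ 3 ≤ 10 ^ 6 * {m ∈ Finset.Icc 1 K | GoodClass p m}.card ^ 4 :=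
  count p hp K hK

end Pool.Agent.Results.MP_59f3ad_nt.EveryPrimeOverQ
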