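import Pool.Agent.TH957.Sch.Red

/-!
# Schneider's conjecture on `Ш¹(O_L[1/p], ℚ_p(r))`: norm relations and the remaining number fields
-/

namespace Pool.Agent.Results.MP_59f3ad_nt.NormRelations

open Pool.Agent.TH957.Sch Pool.Agent.TH957.Zag

/-- the vanishing for all number fields -/
def ForAllFields (p : ℕ) [Fact p.Prime] (r : ℤ) : Prop :=
  ∀ (L : IntermediateField ℚ Qb) [FiniteDimensional ℚ L], Schneider p r L

/-- the vanishing for the number fields without norm relation -/
def ForNoRelation (p : ℕ) [Fact p.Prime] (r : ℤ) : Prop :=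
  ∀ (L : IntermediateField ℚ Qb) [FiniteDimensional ℚ L], NoRelation L → Schneider p r L

/-- the vanishing for the Galois extensions of `ℚ` whose group has a cyclic center -/
def ForCyclicCenter (p : ℕ) [Fact p.Prime] (r : ℤ) : Prop :=
  ∀ (L : IntermediateField ℚ Qb) [FiniteDimensional ℚ L], IsGalois ℚ L →
    CyclicCenter (AutF L) → Schneider p r L

/-- a norm relation reduces the vanishing for `L` to fixed fields -/
def Reduction (p : ℕ) [Fact p.Prime] (r : ℤ) : Prop :=
  ∀ (L : IntermediateField ℚ Qb) [FiniteDimensional ℚ L] (S : Set (Subgroup (AutF L))),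
    HasRelation (AutF L) S → (∀ C ∈ S, Schneider p r (fixF L C)) → Schneider p r L

/-- the reduction for a non-cyclic group of automorphisms whose nontrivial elements have prime order -/
def PrimeOrderReduction (p : ℕ) [Fact p.Prime] (r : ℤ) : Prop :=
  ∀ (L : IntermediateField ℚ Qb) [FiniteDimensional ℚ L] (H : Subgroup (AutF L)), ¬ IsCyclic H →
    PrimeElements H → (∀ C : Subgroup (AutF L), C ≤ H → (Nat.card C).Prime → Schneider p r (fixF L C)) →
      Schneider p r L

/-- **Schneider's conjecture and norm relations**, for every prime `p` and every integer `r` -/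
theorem result (p : ℕ) [Fact p.Prime] (r : ℤ) :
    Reduction p r ∧ PrimeOrderReduction p r ∧ (ForAllFields p r ↔ ForNoRelation p r) ∧
    (∀ (L : IntermediateField ℚ Qb) [FiniteDimensional ℚ L], NoRelation L → CyclicPQ (AutF L)) ∧
    (ForAllFields p r ↔ ForCyclicCenter p r) :=
  ⟨fun L _ S h1 hS => schneider_of_relation p r L S h1 hS,
    fun L _ _ hH hp hS => schneider_of_relation p r L _ (one_mem_normIdeal hH hp) fun C hC => hS C hC.1 hC.2,
    all_iff p r, fun _ _ h => h.cyclicPQ, all_iff_galois p r⟩

end Pool.Agent.Results.MP_59f3ad_nt.NormRelations
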